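import Pool.Agent.U709.FF.Stm

set_option autoImplicit false

/-! Project FF, package NV: virtually abelian finite-index Frattini subgroups. -/

namespace Pool.Agent.U741.FF

open Pool.Agent.U709.FF

theorem normal_PhiF (G : Type) [Group G] : (PhiF G).Normal := by
  refine ⟨fun x hx g => ?_⟩
  unfold PhiF at hx ⊢
  rw [Subgroup.mem_sInf] at hx ⊢
  rintro M ⟨hM, hfin⟩
  have h1 : IsCoatom ((MulAut.conj g).comapSubgroup M) :=
    ((MulAut.conj g).comapSubgroup.isCoatom_iff M).2 hM
  have h2 : ((MulAut.conj g).comapSubgroup M).FiniteIndex := by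
    constructor
    have h3 : ((MulAut.conj g).comapSubgroup M).index = M.index :=
      Subgroup.index_comap_of_surjective M (MulAut.conj g).surjective
    rw [h3]
    exact hfin.index_ne_zero
  have h3 := hx _ ⟨h1, h2⟩
  exact h3

/-- an abelian normal subgroup of `G` of finite index in `N` is the intersection of `N` with a
normal subgroup of finite index -/
theorem exists_L {G : Type} [Group G]
    (hsep : ∀ A : Subgroup G, Ab A → ∀ g ∉ A, ∃ L : Subgroup G, L.FiniteIndex ∧ A ≤ L ∧ g ∉ L)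
    (N : Subgroup G) (D : Subgroup N) [D.FiniteIndex] (hab : Ab (D.map N.subtype))
    (hn : (D.map N.subtype).Normal) :
    ∃ L : Subgroup G, L.Normal ∧ L.FiniteIndex ∧ ∀ x : N, (x : G) ∈ L ↔ x ∈ D := by
  classical
  have h1 : ∀ c : N ⧸ D, ∃ L : Subgroup G, L.FiniteIndex ∧ D.map N.subtype ≤ L ∧
      (c.out ∉ D → (c.out : G) ∉ L) := by
    intro c
    by_cases hc : c.out ∈ D
    · exact ⟨⊤, inferInstance, le_top, fun h => absurd hc h⟩
    · have h2 : (c.out : G) ∉ D.map N.subtype := by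
        rintro ⟨y, hy, hyc⟩
        apply hc
        have : y = c.out := Subtype.ext hyc
        rw [← this]
        exact hy
      obtain ⟨L, h3, h4, h5⟩ := hsep _ hab _ h2
      exact ⟨L, h3, h4, fun _ => h5⟩
  choose L hL1 hL2 hL3 using h1
  have : Finite (N ⧸ D) := Subgroup.finite_quotient_of_finiteIndex
  have : ∀ c, (L c).FiniteIndex := hL1
  have : (⨅ c, L c).FiniteIndex := Subgroup.finiteIndex_iInf fun c => hL1 c
  have hle : D.map N.subtype ≤ ⨅ c, L c := le_iInf hL2
  refine ⟨(⨅ c, L c).normalCore, inferInstance, inferInstance, fun x => ⟨fun hx => ?_, fun hx => ?_⟩⟩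
  · have hx' : (x : G) ∈ ⨅ c, L c := Subgroup.normalCore_le _ hx
    set c : N ⧸ D := (x : N ⧸ D) with hc
    have h4 : c.out⁻¹ * x ∈ D := QuotientGroup.eq.1 (Quotient.out_eq' c)
    by_contra hxD
    have h5 : c.out ∉ D := by
      intro h6
      apply hxD
      have := D.mul_mem h6 h4
      rwa [mul_inv_cancel_left] at this
    apply hL3 c h5
    have h6 : (x : G) ∈ L c := (Subgroup.mem_iInf.1 hx') c
    have h7 : ((c.out⁻¹ * x : N) : G) ∈ L c := hL2 c ⟨_, h4, rfl⟩
    have h8 : (c.out : G) = (x : G) * ((c.out⁻¹ * x : N) : G)⁻¹ := by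
      push_cast
      group
    rw [h8]
    exact (L c).mul_mem h6 ((L c).inv_mem h7)
  · have h4 : D.map N.subtype ≤ (⨅ c, L c).normalCore := Subgroup.normal_le_normalCore.2 hle
    exact h4 ⟨x, hx, rfl⟩

theorem t_NV (h1 : NIL) (h2 : VA) (h3 : QUO) : NV := by
  intro G _ hfg hva hsep
  have hN : (PhiF G).Normal := normal_PhiF G
  obtain ⟨e, he, hfin, hab, hpow, hdiv⟩ := h2 (PhiF G) hfg hva
  set A : Subgroup (PhiF G) := Subgroup.closure {x | ∃ y, x = y ^ e} with hA
  have := hfin
  -- `A` is invariant under conjugation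
  have hconj : ∀ g : G, ∀ a ∈ A, MulAut.conjNormal g a ∈ A := by
    intro g a ha
    have h4 : A.map (MulAut.conjNormal g : MulAut (PhiF G)).toMonoidHom ≤ A := by
      rw [hA, MonoidHom.map_closure, Subgroup.closure_le]
      rintro _ ⟨_, ⟨y, rfl⟩, rfl⟩
      refine Subgroup.subset_closure ⟨MulAut.conjNormal g y, ?_⟩
      simp
    exact h4 ⟨a, ha, rfl⟩
  have hAn : A.Normal := by
    refine ⟨fun a ha g => ?_⟩
    have h4 := hconj (g : G) a ha
    have h5 : MulAut.conjNormal (g : G) a = g * a * g⁻¹ := Subtype.ext (by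
      rw [MulAut.conjNormal_apply]
      rfl)
    rw [h5] at h4
    exact h4
  -- the finite quotients
  have hquo : ∀ p : ℕ, 0 < p → ∃ L : Subgroup G, L.Normal ∧ L.FiniteIndex ∧
      ∀ x : PhiF G, (x : G) ∈ L ↔ ∃ a ∈ A, x = a ^ p := by
    intro p hp
    obtain ⟨D, hD, hDm⟩ := hpow p hp
    have := hD
    have hDab : Ab (D.map (PhiF G).subtype) := by
      rintro _ ⟨x, hx, rfl⟩ _ ⟨y, hy, rfl⟩
      obtain ⟨a, ha, rfl⟩ := (hDm x).1 hx
      obtain ⟨b, hb, rfl⟩ := (hDm y).1 hy
      have h4 : Commute a b := hab a ha b hb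
      have h5 := congrArg (PhiF G).subtype (h4.pow_pow p p).eq
      simpa using h5
    have hDn : (D.map (PhiF G).subtype).Normal := by
      refine ⟨?_⟩
      rintro _ ⟨x, hx, rfl⟩ g
      obtain ⟨a, ha, rfl⟩ := (hDm x).1 hx
      refine ⟨(MulAut.conjNormal g a) ^ p, (hDm _).2 ⟨_, hconj g a ha, rfl⟩, ?_⟩
      rw [map_pow, map_pow, Subgroup.subtype_apply, Subgroup.subtype_apply,
        MulAut.conjNormal_apply, conj_pow]
    obtain ⟨L, hL1, hL2, hL3⟩ := exists_L hsep (PhiF G) D hDab hDn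
    exact ⟨L, hL1, hL2, fun x => (hL3 x).trans (hDm x)⟩
  -- `A` is central
  have hcen : A ≤ Subgroup.center (PhiF G) := by
    intro a ha
    rw [Subgroup.mem_center_iff]
    intro g
    have hs : 0 < A.index := Nat.pos_of_ne_zero hfin.index_ne_zero
    have hc : g * a * g⁻¹ * a⁻¹ ∈ A := A.mul_mem (hAn.conj_mem a ha g) (A.inv_mem ha)
    have h4 : g * a * g⁻¹ * a⁻¹ = 1 := by
      refine hdiv A.index hs _ hc fun p hp hps => ?_
      obtain ⟨L, hL1, hL2, hL3⟩ := hquo p hp.pos
      have := hL1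
      have := hL2
      have hnil := h3 G L
      have h5 : ∀ x : PhiF G, (QuotientGroup.mk' L).subgroupMap (PhiF G) x = 1 ↔ (x : G) ∈ L := by
        intro x
        rw [← QuotientGroup.eq_one_iff]
        exact ⟨fun h => congrArg Subtype.val h, fun h => Subtype.ext h⟩
      set f := (QuotientGroup.mk' L).subgroupMap (PhiF G) with hf
      have h6 := h1 _ hnil (f g) (f a) A.index p ((Nat.Prime.coprime_iff_not_dvd hp).2 hps).symm
        (by
          rw [← map_pow, ← map_mul, ← map_mul]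
          exact congrArg f (hab _ (A.pow_index_mem g) a ha))
        (by
          have h7 : f a ^ p = 1 := by
            rw [← map_pow, h5]
            exact (hL3 _).2 ⟨a, ha, rfl⟩
          rw [h7, mul_one, one_mul])
      have h7 : f (g * a * g⁻¹ * a⁻¹) = 1 := by
        rw [map_mul, map_mul, map_mul, map_inv, map_inv, h6]
        group
      exact (hL3 _).1 ((h5 _).1 h7)
    have h5 : g * a * g⁻¹ * a⁻¹ * (a * g) = 1 * (a * g) := by rw [h4]
    rw [one_mul] at h5
    rw [← h5]
    group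
  obtain ⟨L, hL1, hL2, hL3⟩ := hquo 1 one_pos
  have := hL1
  have := hL2
  have hnil := h3 G L
  refine Subgroup.isNilpotent_of_ker_le_center ((QuotientGroup.mk' L).subgroupMap (PhiF G)) ?_
  intro x hx
  apply hcen
  have h4 : (x : G) ∈ L := by
    rw [← QuotientGroup.eq_one_iff]
    exact congrArg Subtype.val (MonoidHom.mem_ker.1 hx)
  obtain ⟨a, ha, hax⟩ := (hL3 x).1 h4
  rw [hax, pow_one]
  exact ha

end Pool.Agent.U741.FF
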